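import Pool.Agent.U497.AW.PolyWin

/-!
# Pairs of almost primes with an arbitrary even difference: the asymptotic in all windows around almost all integers

Let `d > 0` be ANY even number (arbitrarily large compared with the variable) and let `(Y, Y + H]` be ANY interval. Let `z` be a
certain number between two small powers of `H`, `H ^ δ ≤ z ≤ H ^ θ`, which depends on `ε, θ, H` only, and let
`V = 𝔖_z(d) ∏_{p ≤ z} (1 - 1 / p) ^ 2`, where `𝔖_z(d)` is the constant `𝔖(d)` of the problem with the products restricted to the primes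
`p ≤ z`. For all but `ε H` of the integers `n` of the interval, ALL the windows `(u, v]` around `n` inside `(Y, Y + H]` of length at
least `K / V` contain the expected number `(v - u) V` of integers `m` for which `m` and `m + d` have no prime factor `p ≤ z`, up
to a relative error `ε`. The shortest windows have the length `K'` times the average distance `(log H) ^ 2 / 𝔖(d)` of the prime pairs. If
`d, Y ≤ H ^ A`, the numbers `m, m + d` counted have at most `2 (A + 1) / δ` prime factors.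

Proof (`Pool/Agent/U497/AW`): the second moment of the numbers of the `m` in short intervals, with an average of the singular series of the
quadruples `m, m + d, m + h, m + h + d` over `h`, uniform in `d`, and a maximal inequality for all windows at once.
-/

set_option autoImplicit false

namespace Pool.Agent.Results.MP_678834_nt.AlmostPrimePairsInWindows

open Finset Polynomial

/-- The constant `𝔖(d)` of the problem (`d` even), the products restricted to the primes `p ≤ z`. -/
noncomputable def S (z d : ℕ) : ℝ :=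
  2 * (∏ p ∈ (Icc 3 z).filter Nat.Prime, (1 - 1 / ((p : ℝ) - 1) ^ 2)) *
    ∏ p ∈ (Icc 3 z).filter (fun p => p.Prime ∧ p ∣ d), ((p : ℝ) - 1) / ((p : ℝ) - 2)

/-- The expected density `𝔖_z(d) ∏_{p ≤ z} (1 - 1 / p) ^ 2`. -/
noncomputable def density (z d : ℕ) : ℝ := S z d * ∏ p ∈ (Icc 1 z).filter Nat.Prime, (1 - 1 / (p : ℝ)) ^ 2

/-- `x` has no prime factor `p ≤ z`. -/
def Rough (z x : ℕ) : Prop := ∀ p : ℕ, p.Prime → p ≤ z → ¬ p ∣ x

/-- The number of the `m` with `u < m ≤ v` for which neither `m` nor `m + d` has a prime factor `p ≤ z`. -/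
noncomputable def count (d z u v : ℕ) : ℕ := Set.ncard {m : ℕ | u < m ∧ m ≤ v ∧ Rough z m ∧ Rough z (m + d)}

/-- The integers `n` which lie in SOME window `(u, v]` inside `(Y, Y + H]` with `V (v - u) ≥ K`, `V = density z d`, in which the
number of such `m` differs from `V (v - u)` by more than `ε V (v - u)`. -/
def exceptions (d : ℕ) (ε K : ℝ) (z Y H : ℕ) : Set ℕ :=
  {n : ℕ | ∃ u v : ℕ, Y ≤ u ∧ u < n ∧ n ≤ v ∧ v ≤ Y + H ∧ K ≤ density z d * ((v : ℝ) - u) ∧
    ε * (density z d * ((v : ℝ) - u)) < |(count d z u v : ℝ) - density z d * ((v : ℝ) - u)|}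

/-- the linear forms -/
noncomputable def pol (d : ℕ) : Fin 2 → ℤ[X] := ![X, X + C (d : ℤ)]

lemma rough_iff (z x : ℕ) : Pool.Agent.U497.AW.Rgh z (x : ℤ) ↔ Rough z x := by
  unfold Pool.Agent.U497.AW.Rgh Rough
  simp only [Int.natCast_dvd_natCast]

lemma pol_zero (d : ℕ) : pol d 0 = X := rfl

lemma pol_one (d : ℕ) : pol d 1 = X + C (d : ℤ) := rfl

lemma pol_adm {d : ℕ} (hd : Even d) : Pool.Agent.U497.AW.Adm 2 1 (pol d) := by
  have hdeg : ∀ i, (pol d i).natDegree = 1 := by
    rw [Fin.forall_fin_two, pol_zero, pol_one]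
    exact ⟨natDegree_X, natDegree_X_add_C _⟩
  refine ⟨fun i => (hdeg i).ge, fun i => (hdeg i).le, fun p hp => ?_⟩
  have h1 : ¬ (p : ℤ) ∣ 1 := by
    intro h
    have : p ∣ 1 := by exact_mod_cast h
    exact hp.one_lt.ne' (Nat.dvd_one.1 this)
  by_cases hpd : (p : ℤ) ∣ 1 + d
  · have hp2 : p ≠ 2 := by
      intro h2
      subst h2
      obtain ⟨e, he⟩ := hd
      have h3 : (2 : ℤ) ∣ 1 + d := by exact_mod_cast hpd
      omega
    refine ⟨2, ?_⟩
    rw [Fin.forall_fin_two, pol_zero, pol_one, eval_X, eval_add, eval_X, eval_C]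
    refine ⟨fun h => ?_, fun h => ?_⟩
    · have h3 : p ∣ 2 := by exact_mod_cast h
      exact hp2 ((Nat.prime_dvd_prime_iff_eq hp Nat.prime_two).1 h3)
    · apply h1
      have h3 : (1 : ℤ) = (2 + d) - (1 + d) := by ring
      rw [h3]
      exact dvd_sub h hpd
  · refine ⟨1, ?_⟩
    rw [Fin.forall_fin_two, pol_zero, pol_one, eval_X, eval_add, eval_X, eval_C]
    exact ⟨h1, hpd⟩

lemma om_eq {d p : ℕ} (hp : p.Prime) : Pool.Agent.U497.AW.om (pol d) p = if p ∣ d then 1 else 2 := by
  have h0 : ∀ n : ℕ, (∃ i, (p : ℤ) ∣ (pol d i).eval (n : ℤ)) ↔ p ∣ n ∨ p ∣ n + d := by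
    intro n
    have e0 : (pol d 0).eval (n : ℤ) = n := by simp [pol]
    have e1 : (pol d 1).eval (n : ℤ) = ((n + d : ℕ) : ℤ) := by simp [pol]
    constructor
    · rintro ⟨i, hi⟩
      fin_cases i
      · left
        have hi' : (p : ℤ) ∣ (pol d 0).eval (n : ℤ) := hi
        rw [e0] at hi'
        exact_mod_cast hi'
      · right
        have hi' : (p : ℤ) ∣ (pol d 1).eval (n : ℤ) := hi
        rw [e1] at hi'
        exact_mod_cast hi'
    · rintro (h | h)
      · exact ⟨0, by rw [e0]; exact_mod_cast h⟩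
      · exact ⟨1, by rw [e1]; exact_mod_cast h⟩
  unfold Pool.Agent.U497.AW.om
  simp only [h0]
  split_ifs with hd
  · have h1 : (range p).filter (fun n : ℕ => p ∣ n ∨ p ∣ n + d) = {0} := by
      ext n
      rw [mem_filter, mem_range, mem_singleton]
      constructor
      · rintro ⟨h1, h2 | h2⟩
        · exact Nat.eq_zero_of_dvd_of_lt h2 h1
        · exact Nat.eq_zero_of_dvd_of_lt ((Nat.dvd_add_left hd).1 h2) h1
      · rintro rfl
        exact ⟨hp.pos, Or.inl (dvd_zero _)⟩
    rw [h1, card_singleton]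
  · have hr : 0 < d % p := by
      rcases Nat.eq_zero_or_pos (d % p) with h | h
      · exact absurd (Nat.dvd_of_mod_eq_zero h) hd
      · exact h
    have hr2 : d % p < p := Nat.mod_lt _ hp.pos
    have h1 : (range p).filter (fun n : ℕ => p ∣ n ∨ p ∣ n + d) = {0, p - d % p} := by
      ext n
      rw [mem_filter, mem_range, mem_insert, mem_singleton]
      constructor
      · rintro ⟨h1, h2 | h2⟩
        · exact Or.inl (Nat.eq_zero_of_dvd_of_lt h2 h1)
        · right
          have h3 : p ∣ n + d % p := by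
            have h4 : n + d = (n + d % p) + p * (d / p) := by
              have := Nat.mod_add_div d p
              omega
            rw [h4] at h2
            exact (Nat.dvd_add_left (dvd_mul_right _ _)).1 h2
          obtain ⟨k, hk⟩ := h3
          have hk1 : k = 1 := by
            have h5 : 0 < k := by
              rcases Nat.eq_zero_or_pos k with h | h
              · subst h
                omega
              · exact h
            have h6 : p * k < p * 2 := by omega
            have h7 : k < 2 := lt_of_mul_lt_mul_left h6 (Nat.zero_le _)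
            omega
          subst hk1
          omega
      · rintro (rfl | rfl)
        · exact ⟨hp.pos, Or.inl (dvd_zero _)⟩
        · refine ⟨by omega, Or.inr ?_⟩
          have h4 : p - d % p + d = p + p * (d / p) := by
            have := Nat.mod_add_div d p
            omega
          rw [h4]
          exact dvd_add (dvd_refl _) (dvd_mul_right _ _)
    rw [h1, card_pair]
    omega

lemma density_eq {d z : ℕ} (hd : Even d) (hz : 2 ≤ z) : Pool.Agent.U497.AW.dens (pol d) z = density z d := by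
  have h1 : Pool.Agent.U497.AW.dens (pol d) z =
      ∏ p ∈ (Icc 1 z).filter Nat.Prime, (if p ∣ d then (1 - 1 / (p : ℝ)) else (1 - 2 / (p : ℝ))) := by
    unfold Pool.Agent.U497.AW.dens
    apply prod_congr rfl
    intro p hp
    rw [om_eq (mem_filter.1 hp).2]
    split_ifs <;> norm_num
  have h2 : (Icc 1 z).filter Nat.Prime = insert 2 ((Icc 3 z).filter Nat.Prime) := by
    ext p
    rw [mem_insert, mem_filter, mem_filter, mem_Icc, mem_Icc]
    constructor
    · rintro ⟨h3, h4⟩
      rcases h4.two_le.eq_or_lt with h5 | h5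
      · exact Or.inl h5.symm
      · exact Or.inr ⟨⟨h5, h3.2⟩, h4⟩
    · rintro (rfl | ⟨h3, h4⟩)
      · exact ⟨⟨by norm_num, hz⟩, Nat.prime_two⟩
      · exact ⟨⟨by omega, h3.2⟩, h4⟩
  have h3 : (2 : ℕ) ∉ (Icc 3 z).filter Nat.Prime := by
    rw [mem_filter, mem_Icc]
    omega
  have h4 : ∏ p ∈ (Icc 3 z).filter (fun p => p.Prime ∧ p ∣ d), ((p : ℝ) - 1) / ((p : ℝ) - 2) =
      ∏ p ∈ (Icc 3 z).filter Nat.Prime, (if p ∣ d then ((p : ℝ) - 1) / ((p : ℝ) - 2) else 1) := by
    rw [← filter_filter, prod_filter (fun p => p ∣ d)]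
  unfold density S
  rw [h1, h4, h2, prod_insert h3, prod_insert h3, if_pos hd.two_dvd]
  have h5 : ∏ p ∈ (Icc 3 z).filter Nat.Prime, (if p ∣ d then (1 - 1 / (p : ℝ)) else (1 - 2 / (p : ℝ))) =
      (∏ p ∈ (Icc 3 z).filter Nat.Prime, (1 - 1 / ((p : ℝ) - 1) ^ 2)) *
      (∏ p ∈ (Icc 3 z).filter Nat.Prime, (if p ∣ d then ((p : ℝ) - 1) / ((p : ℝ) - 2) else 1)) *
      ∏ p ∈ (Icc 3 z).filter Nat.Prime, (1 - 1 / (p : ℝ)) ^ 2 := by
    rw [← prod_mul_distrib, ← prod_mul_distrib]
    apply prod_congr rfl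
    intro p hp
    rw [mem_filter, mem_Icc] at hp
    have hp3 : (3 : ℝ) ≤ p := by exact_mod_cast hp.1.1
    have e1 : (p : ℝ) ≠ 0 := by linarith
    have e2 : (p : ℝ) - 1 ≠ 0 := by linarith
    have e3 : (p : ℝ) - 2 ≠ 0 := by linarith
    split_ifs
    · field_simp
      ring
    · field_simp
      ring
  rw [h5]
  norm_num
  ring

lemma count_eq (d z u v : ℕ) : Pool.Agent.U497.AW.cntW (pol d) z u v = count d z u v := by
  unfold Pool.Agent.U497.AW.cntW count
  congr 1
  ext m
  have e0 : (pol d 0).eval (m : ℤ) = m := by simp [pol]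
  have e1 : (pol d 1).eval (m : ℤ) = ((m + d : ℕ) : ℤ) := by simp [pol]
  rw [Set.mem_ofPred_eq, Set.mem_ofPred_eq, Fin.forall_fin_two, e0, e1, rough_iff, rough_iff]

/-- **Theorem.** -/
theorem result (ε θ : ℝ) (hε : 0 < ε) (hθ : 0 < θ) :
    ∃ δ K : ℝ, 0 < δ ∧ 0 < K ∧ ∃ H₀ : ℕ, ∀ H : ℕ, H₀ ≤ H → ∃ z : ℕ, (H : ℝ) ^ δ ≤ z ∧ (z : ℝ) ≤ (H : ℝ) ^ θ ∧
      ∀ d : ℕ, 0 < d → Even d → ∀ Y : ℕ,
        ((exceptions d ε K z Y H).ncard : ℝ) ≤ ε * H ∧
        ∀ A : ℕ, d ≤ H ^ A → Y ≤ H ^ A → ∀ m : ℕ, m ≤ Y + H → Rough z m → Rough z (m + d) →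
          (m.primeFactorsList.length : ℝ) ≤ 2 * (A + 1) / δ ∧ ((m + d).primeFactorsList.length : ℝ) ≤ 2 * (A + 1) / δ := by
  obtain ⟨δ, K, hδ, hK, H₀, h1⟩ := Pool.Agent.U497.AW.polyWin 2 1 ε θ hε hθ
  obtain ⟨H₁, hH₁⟩ : ∃ H₁ : ℕ, ∀ H : ℕ, H₁ ≤ H → (2 : ℝ) ≤ (H : ℝ) ^ δ := by
    have h2 : Filter.Tendsto (fun H : ℕ => (H : ℝ) ^ δ) Filter.atTop Filter.atTop :=
      (tendsto_rpow_atTop hδ).comp tendsto_natCast_atTop_atTop
    exact Filter.eventually_atTop.1 (h2.eventually_ge_atTop 2)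
  refine ⟨δ, K, hδ, hK, H₀ + H₁ + 1, fun H hH => ?_⟩
  obtain ⟨z, hz1, hz2, hz3⟩ := h1 H (by omega)
  have hz2' : 2 ≤ z := by
    have h2 := (hH₁ H (by omega)).trans hz1
    exact_mod_cast h2
  refine ⟨z, hz1, hz2, fun d _ hd Y => ?_⟩
  obtain ⟨h2, h3⟩ := hz3 _ (pol_adm hd) Y
  have h4 : Pool.Agent.U497.AW.excW (pol d) ε K z Y H = exceptions d ε K z Y H := by
    unfold Pool.Agent.U497.AW.excW exceptions
    simp only [density_eq hd hz2', count_eq]
  rw [h4] at h2
  refine ⟨h2, fun A hA hY m hm hr1 hr2 => ?_⟩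
  have e0 : (pol d 0).eval (m : ℤ) = m := by simp [pol]
  have e1 : (pol d 1).eval (m : ℤ) = ((m + d : ℕ) : ℤ) := by simp [pol]
  have hcoef : ∀ i j, |(pol d i).coeff j| ≤ (H : ℤ) ^ A := by
    have h5 : (1 : ℤ) ≤ (H : ℤ) ^ A := one_le_pow₀ (by exact_mod_cast (by omega : 1 ≤ H))
    have h6 : (d : ℤ) ≤ (H : ℤ) ^ A := by exact_mod_cast hA
    rw [Fin.forall_fin_two, pol_zero, pol_one]
    refine ⟨fun j => ?_, fun j => ?_⟩
    · rw [coeff_X]
      split_ifs
      · simpa using h5
      · simpa using zero_le_one.trans h5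
    · rw [coeff_add, coeff_X, coeff_C]
      rcases j with _ | _ | j
      · simpa using h6
      · simpa using h5
      · simpa using zero_le_one.trans h5
  have h5 := h3 A hcoef hY m hm (by
    rw [Fin.forall_fin_two, e0, e1, rough_iff, rough_iff]
    exact ⟨hr1, hr2⟩)
  have h6 := (h5 0).2
  have h7 := (h5 1).2
  rw [e0, Int.natAbs_natCast] at h6
  rw [e1, Int.natAbs_natCast] at h7
  have e2 : ((A : ℝ) + 1) * (((1 : ℕ) : ℝ) + 1) / δ = 2 * (A + 1) / δ := by
    push_cast
    ring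
  rw [e2] at h6 h7
  exact ⟨h6, h7⟩

end Pool.Agent.Results.MP_678834_nt.AlmostPrimePairsInWindows
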