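import Pool.Agent.U288.RO.M6

/-!
# Prime pairs whose differences are the multiples of shifted primes: the right order of magnitude

A positive proportion of the sets of `k + 1` integers `0 = h 0 < ... < h k ≤ D` all of whose differences are shifted
primes are such that ALL the multiples `l (h j - h i)`, `1 ≤ l ≤ L`, of all the differences satisfy the lower bound
of the right order of magnitude in the conjecture of Hardy and Littlewood for pairs, for all `D` between
`log x (log log x) ^ B` and any power of `log x`.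
-/

set_option autoImplicit false

open Finset Filter

namespace Pool.Agent.Results.MP_678834_nt.MultiplesOfShiftedPrimes

/-- the number of primes `p ≤ x` such that `p - d` is a prime -/
noncomputable def pi2 (x : ℝ) (d : ℕ) : ℕ := ((Icc 1 ⌊x⌋₊).filter (fun p : ℕ => p.Prime ∧ (p - d).Prime)).card

/-- the twin prime constant -/
noncomputable def C2 : ℝ := ∏' p : {p : ℕ // p.Prime ∧ 2 < p}, (1 - 1 / (((p.1 : ℕ) : ℝ) - 1) ^ 2)

/-- the singular series of the even number `d` -/
noncomputable def 𝔖 (d : ℕ) : ℝ :=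
  2 * C2 * ∏ p ∈ d.primeFactors.filter (fun p : ℕ => 2 < p), (((p : ℝ) - 1) / ((p : ℝ) - 2))

open Classical in
/-- the vectors `0 = h 0 < h 1 < ... < h k ≤ D`; if `σ ≠ 0`, those with `h j - h i + σ` prime for all `i < j` -/
noncomputable def patterns (k : ℕ) (σ : ℤ) (D : ℝ) : Finset (Fin (k + 1) → ℕ) :=
  (Fintype.piFinset (fun _ : Fin (k + 1) => range (⌊D⌋₊ + 1))).filter (fun h => h 0 = 0 ∧ StrictMono h ∧
    ∀ i j, i < j → σ ≠ 0 → ((h j : ℤ) - h i + σ).toNat.Prime)

/-- the number of the conditions -/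
def edges (k : ℕ) (σ : ℤ) : ℕ := if σ = 0 then 0 else k * (k + 1) / 2

open Classical in
/-- the patterns all of whose differences `d` are even and satisfy `π₂(x, l d) ≥ κ 𝔖(l d) x / (log x) ^ 2` for all
`1 ≤ l ≤ L` -/
noncomputable def good (k : ℕ) (σ : ℤ) (L : ℕ) (D x κ : ℝ) : Finset (Fin (k + 1) → ℕ) :=
  (patterns k σ D).filter (fun h => ∀ i j, i < j → Even (h j - h i) ∧ ∀ l : ℕ, 1 ≤ l → l ≤ L →
    κ * 𝔖 (l * (h j - h i)) * (x / Real.log x ^ 2) ≤ (pi2 x (l * (h j - h i)) : ℝ))

open Pool.Agent.U288.RO Pool.Agent.H387R2.Uni Pool.Agent.Y851.DK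

lemma prod_le_sg (d : ℕ) : |∏ p ∈ d.primeFactors.filter (fun p : ℕ => 2 < p), (((p : ℝ) - 1) / ((p : ℝ) - 2))| ≤
    Real.exp (3 * sg d) := by
  have h0 : 0 ≤ ∏ p ∈ d.primeFactors.filter (fun p : ℕ => 2 < p), (((p : ℝ) - 1) / ((p : ℝ) - 2)) := by
    apply prod_nonneg
    intro p hp
    have : (3 : ℝ) ≤ p := by exact_mod_cast (mem_filter.1 hp).2
    apply div_nonneg <;> linarith
  rw [abs_of_nonneg h0]
  have h1 : ∏ p ∈ d.primeFactors.filter (fun p : ℕ => 2 < p), (((p : ℝ) - 1) / ((p : ℝ) - 2)) ≤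
      ∏ p ∈ d.primeFactors.filter (fun p : ℕ => 2 < p), Real.exp (3 * (1 / p)) := by
    apply Finset.prod_le_prod
    · intro p hp
      have : (3 : ℝ) ≤ p := by exact_mod_cast (mem_filter.1 hp).2
      apply div_nonneg <;> linarith
    · intro p hp
      have h3 : (3 : ℝ) ≤ p := by exact_mod_cast (mem_filter.1 hp).2
      have h4 : ((p : ℝ) - 1) / ((p : ℝ) - 2) ≤ 3 * (1 / p) + 1 := by
        rw [div_le_iff₀ (by linarith)]
        have h5 : (3 * (1 / (p : ℝ)) + 1) * (p - 2) = 3 - 6 / p + p - 2 := by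
          field_simp
          ring
        have h6 : 6 / (p : ℝ) ≤ 2 := by
          rw [div_le_iff₀ (by linarith)]
          linarith
        rw [h5]
        linarith
      exact h4.trans (Real.add_one_le_exp _)
  refine h1.trans ?_
  rw [← Real.exp_sum, ← mul_sum]
  apply Real.exp_le_exp.2
  apply mul_le_mul_of_nonneg_left _ (by norm_num)
  unfold sg
  exact sum_le_sum_of_subset_of_nonneg (filter_subset _ _) fun p _ _ => by positivity

/-- For all `k`, `L ≥ 1` and `σ = 0, 1, -1` there are `κ, c > 0`, `C` and `B` such that for every `A`, all large `x`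
and all real `D` with `log x (log log x) ^ B ≤ D ≤ (log x) ^ A`: there are at most `C D ^ k / (log D) ^ e` patterns up
to `D`, `e` the number of the conditions, and at least `c D ^ k / (log D) ^ e` of them are good. -/
theorem result :
    ∀ (k L : ℕ), 1 ≤ L → ∀ σ : ℤ, (σ = 0 ∨ σ = 1 ∨ σ = -1) →
      ∃ (κ c C : ℝ) (B : ℕ), 0 < κ ∧ 0 < c ∧ ∀ A : ℝ, ∃ X : ℝ, ∀ x : ℝ, X ≤ x → ∀ D : ℝ,
        Real.log x * Real.log (Real.log x) ^ B ≤ D → D ≤ Real.log x ^ A →
        c * (D ^ k / Real.log D ^ edges k σ) ≤ ((good k σ L D x κ).card : ℝ) ∧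
        ((patterns k σ D).card : ℝ) ≤ C * (D ^ k / Real.log D ^ edges k σ) := by
  classical
  intro k L hL σ hσ
  obtain ⟨c, κ, t, C, hc, hκ, ht, hC, B, hmain⟩ := half_mainL k σ hσ L hL
  have he : (Pool.Agent.U288.SP.edg (Pool.Agent.U288.RO.csF k σ)).card = edges k σ := by
    rw [Pool.Agent.U288.SP.edg_const k σ]
    rfl
  rw [he] at hmain
  set M : ℝ := (2 * |C2| + 1) * Real.exp (3 * (L + t)) with hM
  have hMp : 0 < M := by
    have : 0 ≤ |C2| := abs_nonneg _
    positivity
  refine ⟨κ / 2 / M, c, C, B, by positivity, hc, fun A => ?_⟩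
  obtain ⟨X, hX⟩ := eventually_atTop.1 ((hmain A).and ((half_subL k L κ t hκ).and
    (eventually_ge_atTop (3 : ℝ))))
  refine ⟨X, fun x hx D hD1 hD2 => ?_⟩
  obtain ⟨h1, h2, hx3⟩ := hX x hx
  obtain ⟨hD2', hLD, h3, h4⟩ := h1 D hD1 hD2
  refine ⟨h3.trans ?_, h4⟩
  rw [Nat.cast_le]
  apply card_le_card
  intro h hh
  have h5 := h2 σ ⌊D⌋₊ h hh
  obtain ⟨h6, -, hsgt⟩ := mem_goodRL.1 hh
  have h6' := h6
  simp only [Pool.Agent.U288.SP.shifts, mem_filter, Fintype.mem_piFinset, mem_range] at h6'
  obtain ⟨hr, h0, hmono, -⟩ := h6'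
  unfold good
  rw [mem_filter]
  refine ⟨?_, fun i j hij => ⟨?_, fun l hl1 hlL => ?_⟩⟩
  · simp only [Pool.Agent.U288.SP.shifts, mem_filter] at h6
    simp only [patterns, mem_filter]
    exact h6
  · have h7 := (h5 1 one_ne_zero (by simpa using hL) univ univ_nonempty).1
    have h8 : (univ.image h).image (fun t => (1 : ℤ).natAbs * t) = univ.image h := by
      simp
    rw [h8] at h7
    have h9 : ∀ i, Even (h i) := fun i =>
      even_of_adm' h7 (mem_image.2 ⟨0, mem_univ _, h0⟩) (mem_image_of_mem _ (mem_univ i))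
    exact (Nat.even_sub (hmono hij).le).2 ⟨fun _ => h9 i, fun _ => h9 j⟩
  · have hl0 : (l : ℤ) ≠ 0 := by omega
    have hne : i ≠ j := hij.ne
    obtain ⟨-, -, -, h7⟩ := h5 l hl0 (by simpa using hlL) {i, j} ⟨i, by simp⟩
    rw [card_pair hne] at h7
    have hdl : h i < h j := hmono hij
    -- the singular series
    have h8 : 𝔖 (l * (h j - h i)) ≤ M := by
      have e1 : sg (l * (h j - h i)) ≤ L + t := by
        have e2 := sgz_mul_le (l : ℤ) ((h j : ℤ) - h i) L hl0 (by simpa using hlL)
        have e3 : ((l : ℤ) * ((h j : ℤ) - h i)).natAbs = l * (h j - h i) := by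
          have : ((l : ℤ) * ((h j : ℤ) - h i)) = ((l * (h j - h i) : ℕ) : ℤ) := by
            rw [Nat.cast_mul, Nat.cast_sub hdl.le]
          rw [this, Int.natAbs_natCast]
        rw [e3] at e2
        have e4 := sg_le_sgs h j i
        linarith
      have e2 := prod_le_sg (l * (h j - h i))
      have e3 : Real.exp (3 * sg (l * (h j - h i))) ≤ Real.exp (3 * (L + t)) := Real.exp_le_exp.2 (by linarith)
      have e4 : 𝔖 (l * (h j - h i)) ≤ |𝔖 (l * (h j - h i))| := le_abs_self _
      refine e4.trans ?_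
      unfold 𝔖
      rw [abs_mul, abs_mul, hM]
      have e5 : |(2 : ℝ)| = 2 := abs_of_pos (by norm_num)
      rw [e5]
      have e6 : 0 ≤ |C2| := abs_nonneg _
      apply mul_le_mul (by linarith) (e2.trans e3) (abs_nonneg _) (by linarith)
    -- the count
    have h9 : cnt2 l x (({i, j} : Finset (Fin (k + 1))).image h) ≤ pi2 x (l * (h j - h i)) := by
      unfold cnt2 pi2
      apply card_le_card_of_injOn (fun m => m + l * h j)
      · intro m hm
        rw [mem_coe, mem_filter, mem_Icc] at hm
        obtain ⟨⟨hm1, hm2⟩, hm3⟩ := hm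
        have e1 := hm3 (h i) (by simp)
        have e2 := hm3 (h j) (by simp)
        have e3 : ∀ a : ℕ, ((m : ℤ) + (l : ℤ) * (a : ℤ)).toNat = m + l * a := by
          intro a
          have : ((m : ℤ) + (l : ℤ) * (a : ℤ)) = ((m + l * a : ℕ) : ℤ) := by push_cast; ring
          rw [this, Int.toNat_natCast]
        rw [e3] at e1 e2
        rw [mem_coe, mem_filter, mem_Icc]
        dsimp only
        refine ⟨⟨by omega, ?_⟩, e2, ?_⟩
        · apply Nat.le_floor
          push_cast
          have e4 : (m : ℝ) ≤ x / 2 := (Nat.le_floor_iff (by linarith)).1 hm2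
          have e5 : (h j : ℝ) ≤ D := by
            have := hr j
            have e6 : h j ≤ ⌊D⌋₊ := by omega
            exact (Nat.le_floor_iff (by linarith)).1 e6
          have e6 : (l : ℝ) * h j ≤ L * D := by
            apply mul_le_mul (by exact_mod_cast hlL) e5 (Nat.cast_nonneg _) (Nat.cast_nonneg _)
          linarith
        · have e4 : m + l * h j - l * (h j - h i) = m + l * h i := by
            have e5 : l * (h j - h i) + l * h i = l * h j := by
              rw [← Nat.mul_add]
              congr 1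
              omega
            omega
          rw [e4]
          exact e1
      · intro a _ b _ hab
        simp only at hab
        omega
    have hlp : 0 < Real.log x := Real.log_pos (by linarith)
    calc κ / 2 / M * 𝔖 (l * (h j - h i)) * (x / Real.log x ^ 2) ≤ κ / 2 / M * M * (x / Real.log x ^ 2) := by
          apply mul_le_mul_of_nonneg_right _ (by positivity)
          exact mul_le_mul_of_nonneg_left h8 (by positivity)
      _ = κ / 2 * (x / Real.log x ^ 2) := by
          field_simp
      _ ≤ _ := h7.trans (by exact_mod_cast h9)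

end Pool.Agent.Results.MP_678834_nt.MultiplesOfShiftedPrimes
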