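import Mathlib
import Pool.Agent.U98.TZ.E1

set_option autoImplicit false

/-!
# The differences of successive close pairs of almost primes

Call an integer rough at the level `w` if it has no prime factors `p ≤ w`. The singular series of the problem is
`𝔖(d) = 2 C₂ weight d` with `weight d = 0` for odd `d` and `weight d = ∏_{p | d, p ≥ 3} (p - 1) / (p - 2)` for even `d`.

* Uniformly for all `d ≤ L`, `L` up to any constant times the mean distance of the rough numbers, the number of the
  pairs `n, n + d` of rough numbers one of which, the first or the second one, is a PRIME and such that there are no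
  other rough numbers in `[n, n + L]` is asymptotically the expected one; it is proportional to `𝔖(d)`.
* The differences `d ≤ H` of the successive pairs of consecutive rough numbers with differences `≤ H` form a sequence of
  independent trials with the probabilities `𝔖(d) / ∑_{e ≤ H} 𝔖(e)`, and they are independent of the distances between
  the pairs, which have the exponential law; this holds in ALL intervals of length `≥ w ^ K`.
-/

namespace Pool.Agent.Results.MP_678834_nt.SuccessiveClosePairs

open Finset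

/-- `n` has no prime factors `p ≤ w` -/
def Rough (w n : ℕ) : Prop := ∀ p : ℕ, p.Prime → p ≤ w → ¬ p ∣ n

/-- `n` and `n + d` are consecutive rough numbers -/
def Pair (w d n : ℕ) : Prop := 1 ≤ d ∧ ∀ i ≤ d, (Rough w (n + i) ↔ i = 0 ∨ i = d)

/-- `n` is rough and the next rough number is at a distance at most `H` -/
def Close (w H n : ℕ) : Prop := ∃ d ≤ H, Pair w d n

/-- the place of the next close pair -/
noncomputable def next (w H n : ℕ) : ℕ := sInf {m | n < m ∧ Close w H m}

/-- `𝔖(d) / (2 C₂)` -/
noncomputable def weight (d : ℕ) : ℝ :=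
  if 2 ∣ d then ∏ p ∈ d.primeFactors.filter (fun p => 3 ≤ p), (((p : ℝ) - 1) / ((p : ℝ) - 2)) else 0

/-- the sum of the weights of the differences up to `H` -/
noncomputable def total (H : ℕ) : ℝ := ∑ d ∈ Icc 1 H, weight d

/-- the product of `1 / 2` and of `1 - 2 / p` over the odd primes `p ≤ w` -/
noncomputable def twin (w : ℕ) : ℝ := ∏ p ∈ (Icc 1 w).filter Nat.Prime, (if p = 2 then 1 / 2 else 1 - 2 / (p : ℝ))

/-- the product of `1 - 1 / p` over the primes `p ≤ w` -/
noncomputable def mertens (w : ℕ) : ℝ := ∏ p ∈ (Icc 1 w).filter Nat.Prime, (1 - 1 / (p : ℝ))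

/-- The number of the close pairs at `n ∈ (Z, Z + Y]` such that this and the next `l` close pairs have the differences
`d 0, ..., d l` and the `l` distances between them are in `(s j, T j]`. -/
noncomputable def pairCount (w H l : ℕ) (d s T : ℕ → ℕ) (Z Y : ℕ) : ℕ :=
  Set.ncard {n : ℕ | Z < n ∧ n ≤ Z + Y ∧ (∀ j ≤ l, Pair w (d j) ((next w H)^[j] n)) ∧
    ∀ j < l, s j < (next w H)^[j + 1] n - (next w H)^[j] n ∧ (next w H)^[j + 1] n - (next w H)^[j] n ≤ T j}

/-- The number of the `n ∈ (u, u + Y]` such that `n` and `n + d` are rough, no other number in `[n, n + L]` is rough, and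
`n + b` is prime. -/
noncomputable def primeCount (w d b L u Y : ℕ) : ℕ :=
  Set.ncard {n : ℕ | u < n ∧ n ≤ u + Y ∧ (∀ i ≤ L, (Rough w (n + i) ↔ i = 0 ∨ i = d)) ∧ (n + b).Prime}

open Pool.Agent.U98.TZ Pool.Agent.U98.TY Pool.Agent.H373R2.T7 Pool.Agent.W123.RP

lemma nu_pair (d p : ℕ) (hp : p.Prime) : nuS {0, d} p = if p ∣ d then 1 else 2 := by
  have _ := hp
  unfold nuS
  rw [Finset.image_insert, Finset.image_singleton, Nat.zero_mod]
  split_ifs with h
  · rw [Nat.mod_eq_zero_of_dvd h]
    simp
  · rw [Finset.card_pair]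
    intro h1
    exact h (Nat.dvd_of_mod_eq_zero h1.symm)

/-- the density of a pair -/
lemma dS_pair (w d : ℕ) (hd1 : 1 ≤ d) (hd : d ≤ w) (hw : 2 ≤ w) : dS w {0, d} = weight d * twin w := by
  unfold dS weight twin
  by_cases h2 : 2 ∣ d
  · rw [if_pos h2]
    have h4 : ∏ p ∈ d.primeFactors.filter (fun p => 3 ≤ p), (((p : ℝ) - 1) / ((p : ℝ) - 2)) =
        ∏ p ∈ (Icc 1 w).filter Nat.Prime, (if p ∣ d ∧ 3 ≤ p then (((p : ℝ) - 1) / ((p : ℝ) - 2)) else 1) := by
      rw [← Finset.prod_filter]
      apply prod_congr _ (fun _ _ => rfl)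
      ext p
      rw [mem_filter, mem_filter, mem_filter, mem_Icc, Nat.mem_primeFactors]
      constructor
      · rintro ⟨⟨a1, a2, _⟩, a3⟩
        exact ⟨⟨⟨a1.one_le, (Nat.le_of_dvd hd1 a2).trans hd⟩, a1⟩, a2, a3⟩
      · rintro ⟨⟨⟨_, _⟩, a3⟩, a4, a5⟩
        exact ⟨⟨a3, a4, by omega⟩, a5⟩
    rw [h4, ← Finset.prod_mul_distrib]
    apply prod_congr rfl
    intro p hp
    rw [mem_filter] at hp
    have hpp := hp.2
    rw [nu_pair d p hpp]
    by_cases hp2 : p = 2
    · subst hp2
      rw [if_pos h2, if_neg (by omega), if_pos rfl]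
      norm_num
    · have hp3 : 3 ≤ p := by
        have := hpp.two_le
        omega
      have hp0 : (3 : ℝ) ≤ p := by exact_mod_cast hp3
      rw [if_neg hp2]
      by_cases hpd : p ∣ d
      · rw [if_pos hpd, if_pos ⟨hpd, hp3⟩]
        have h5 : (p : ℝ) - 2 ≠ 0 := by linarith
        have h6 : (p : ℝ) ≠ 0 := by linarith
        push_cast
        field_simp
      · rw [if_neg hpd, if_neg (by tauto)]
        push_cast
        ring
  · rw [if_neg h2, zero_mul]
    apply Finset.prod_eq_zero (i := 2)
    · rw [mem_filter, mem_Icc]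
      exact ⟨⟨by norm_num, hw⟩, Nat.prime_two⟩
    · rw [nu_pair d 2 Nat.prime_two, if_neg h2]
      norm_num

lemma weight_nonneg (d : ℕ) : 0 ≤ weight d := by
  unfold weight
  split_ifs with h
  · apply prod_nonneg
    intro p hp
    rw [mem_filter] at hp
    have : (3 : ℝ) ≤ p := by exact_mod_cast hp.2
    apply div_nonneg <;> linarith
  · exact le_rfl

lemma weight_two : weight 2 = 1 := by
  unfold weight
  rw [if_pos dvd_rfl]
  apply Finset.prod_eq_one
  intro p hp
  rw [mem_filter, Nat.mem_primeFactors] at hp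
  have := Nat.le_of_dvd (by norm_num) hp.1.2.1
  omega

lemma twin_pos (w : ℕ) : 0 < twin w := by
  unfold twin
  apply prod_pos
  intro p hp
  rw [mem_filter] at hp
  split_ifs with h
  · norm_num
  · have hp3 : 2 < p := lt_of_le_of_ne hp.2.two_le (Ne.symm h)
    have hp0 : (2 : ℝ) < p := by exact_mod_cast hp3
    rw [sub_pos, div_lt_one (by linarith)]
    exact hp0

/-- the shapes -/
def shapes (H : ℕ) : Finset (Finset ℕ) := (Icc 1 H).image (fun d => {0, d})

lemma sup_pair (d : ℕ) : ({0, d} : Finset ℕ).sup id = d := by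
  rw [Finset.sup_insert, Finset.sup_singleton]
  simp

lemma pair_iff (w d n : ℕ) (hd : 1 ≤ d) : Pair w d n ↔ Blk w {0, d} n := by
  unfold Pair Blk
  rw [sup_pair]
  constructor
  · rintro ⟨_, h1⟩ i hi
    rw [mem_insert, mem_singleton]
    exact h1 i hi
  · intro h1
    refine ⟨hd, ?_⟩
    intro i hi
    have := h1 i hi
    rw [mem_insert, mem_singleton] at this
    exact this

lemma close_iff (w H n : ℕ) : Close w H n ↔ ∃ S ∈ shapes H, Blk w S n := by
  unfold Close shapes
  constructor
  · rintro ⟨d, hd, h1⟩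
    refine ⟨{0, d}, mem_image.2 ⟨d, mem_Icc.2 ⟨h1.1, hd⟩, rfl⟩, (pair_iff w d n h1.1).1 h1⟩
  · rintro ⟨S, hS, h1⟩
    obtain ⟨d, hd, rfl⟩ := mem_image.1 hS
    rw [mem_Icc] at hd
    exact ⟨d, hd.2, (pair_iff w d n hd.1).2 h1⟩

lemma pair_inj (H : ℕ) : Set.InjOn (fun d : ℕ => ({0, d} : Finset ℕ)) (Icc 1 H : Set ℕ) := by
  intro a ha b hb hab
  have h1 : ({0, a} : Finset ℕ) = {0, b} := hab
  have h2 := congrArg (fun S : Finset ℕ => S.sup id) h1
  simp only [sup_pair] at h2
  exact h2

/-- **The differences of successive close pairs of almost primes.** -/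
theorem result :
    -- rough numbers are almost primes
    (∀ w n s : ℕ, 0 < n → n ≤ w ^ s → Rough w n → n.primeFactorsList.length ≤ s) ∧
    -- pairs with a prime, uniformly in the difference
    (∀ x₀ ε δ : ℝ, 0 < ε → 0 < δ → δ ≤ 1 → ∃ r w₀ : ℕ, ∀ w : ℕ, w₀ ≤ w → ∀ X : ℕ, w ^ r ≤ X →
      ∀ L : ℕ, L * mertens w ≤ x₀ → ∀ d b : ℕ, 1 ≤ d → d ≤ L → b = 0 ∨ b = d →
      ∀ u Y : ℕ, δ * X ≤ u → δ * X ≤ Y → u + Y ≤ X →
        |(primeCount w d b L u Y : ℝ) * Real.log X -
            Y * (weight d * twin w / mertens w) * Real.exp (-(L * mertens w))| ≤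
          ε * (Y * (weight d * twin w / mertens w) * Real.exp (-(L * mertens w)))) ∧
    -- the law of the differences of successive close pairs
    (∀ H : ℕ, 2 ≤ H → 0 < total H ∧ ∀ l : ℕ, ∀ ε : ℝ, 0 < ε → ∃ K w₀ : ℕ, ∀ w : ℕ, w₀ ≤ w →
      ∀ Z Y : ℕ, w ^ K ≤ Y → ∀ d s T : ℕ → ℕ, (∀ j ≤ l, 1 ≤ d j ∧ d j ≤ H) → (∀ j < l, s j ≤ T j) →
        |(pairCount w H l d s T Z Y : ℝ) - total H * twin w * Y * (∏ j ∈ range (l + 1), weight (d j) / total H) *
            ∏ j ∈ range l, (Real.exp (-(total H * twin w * s j)) - Real.exp (-(total H * twin w * T j)))| ≤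
          ε * (total H * twin w * Y)) := by
  classical
  refine ⟨fun w n s hn hns hR => few w s n hn hns hR, ?_, ?_⟩
  · intro x₀ ε δ hε hδ hδ1
    obtain ⟨r, w0, hmain⟩ := prime_block 2 (by norm_num) x₀ ε δ hε hδ hδ1
    obtain ⟨w1, hlen⟩ := len_le x₀
    refine ⟨r, max (max w0 w1) 2, ?_⟩
    intro w hw X hX L hL d b hd hdL hb u Y hu hY huY
    have b1 : w0 ≤ w := ((le_max_left _ _).trans (le_max_left _ _)).trans hw
    have b2 : w1 ≤ w := ((le_max_right _ _).trans (le_max_left _ _)).trans hw
    have b3 : 2 ≤ w := (le_max_right _ _).trans hw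
    have hmert : mertens w = Vz w := rfl
    rw [hmert] at hL ⊢
    have hLw : L ≤ w := hlen w b2 L hL
    have hcard : ({0, d} : Finset ℕ).card = 2 := Finset.card_pair (by omega)
    have h1 := hmain w b1 X hX {0, d} hcard (by simp) b (by
      rw [mem_insert, mem_singleton]; exact hb) L (by
      intro i hi
      rw [mem_insert, mem_singleton] at hi
      rw [mem_range]
      omega) hL u Y hu hY huY
    rw [dS_pair w d hd (hdL.trans hLw) b3] at h1
    have hcount : pcL w {0, d} b L u Y = primeCount w d b L u Y := by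
      unfold pcL primeCount
      congr 1
      ext n
      simp only [Set.mem_ofPred_eq]
      constructor
      · rintro ⟨a1, a2, a3, a4⟩
        refine ⟨a1, a2, fun i hi => ?_, a4⟩
        have := a3 i hi
        rw [mem_insert, mem_singleton] at this
        exact this
      · rintro ⟨a1, a2, a3, a4⟩
        refine ⟨a1, a2, fun i hi => ?_, a4⟩
        rw [mem_insert, mem_singleton]
        exact a3 i hi
    rw [hcount] at h1
    exact h1
  · intro H hH
    have htot : 0 < total H := by
      unfold total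
      apply Finset.sum_pos' (fun d _ => weight_nonneg d)
      exact ⟨2, mem_Icc.2 ⟨by norm_num, hH⟩, by rw [weight_two]; norm_num⟩
    refine ⟨htot, ?_⟩
    intro l ε hε
    obtain ⟨K, w₀, hlaw⟩ := law_family 2 l (shapes H) (by
      intro S hS
      obtain ⟨d, hd, rfl⟩ := mem_image.1 hS
      rw [mem_Icc] at hd
      exact ⟨Finset.card_pair (by omega), by simp⟩)
      ⟨{0, 2}, mem_image.2 ⟨2, mem_Icc.2 ⟨by norm_num, hH⟩, rfl⟩, by
        intro p hp
        rw [nu_pair 2 p hp]
        split_ifs with h
        · exact hp.one_lt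
        · have := hp.two_le
          have h2 : p ≠ 2 := fun h3 => h (by rw [h3])
          omega⟩ ε hε
    refine ⟨K, max w₀ (max H 2), ?_⟩
    intro w hw Z Y hY d s T hd hsT
    have b1 : w₀ ≤ w := (le_max_left _ _).trans hw
    have b2 : H ≤ w := ((le_max_left _ _).trans (le_max_right _ _)).trans hw
    have b3 : 2 ≤ w := ((le_max_right _ _).trans (le_max_right _ _)).trans hw
    have hD : total H * twin w = ∑ S ∈ shapes H, dS w S := by
      unfold total shapes
      rw [Finset.sum_image (by
        intro a ha b hb hab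
        exact pair_inj H (Finset.mem_coe.1 ha) (Finset.mem_coe.1 hb) hab), Finset.sum_mul]
      apply Finset.sum_congr rfl
      intro e he
      rw [mem_Icc] at he
      rw [dS_pair w e he.1 (he.2.trans b2) b3]
    have hmain := hlaw w b1 Z Y hY (fun j => {0, d j}) s T (by
      intro j hj
      exact mem_image.2 ⟨d j, mem_Icc.2 (hd j hj), rfl⟩) hsT (total H * twin w) hD
    have htw := twin_pos w
    have hprod : ∏ j ∈ range (l + 1), dS w {0, d j} / (total H * twin w) =
        ∏ j ∈ range (l + 1), weight (d j) / total H := by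
      apply prod_congr rfl
      intro j hj
      rw [mem_range] at hj
      have h1 := hd j (by omega)
      rw [dS_pair w (d j) h1.1 (h1.2.trans b2) b3]
      field_simp
    rw [hprod] at hmain
    have hnx : nxB w (shapes H) = next w H := by
      funext n
      unfold nxB next
      congr 1
      ext m
      simp only [Set.mem_ofPred_eq]
      rw [close_iff]
    have hcount : cB w (shapes H) l (fun j => {0, d j}) s T Z Y = pairCount w H l d s T Z Y := by
      unfold cB pairCount
      rw [hnx]
      congr 1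
      ext n
      simp only [Set.mem_ofPred_eq]
      constructor
      · rintro ⟨a1, a2, a3, a4⟩
        exact ⟨a1, a2, fun j hj => (pair_iff w _ _ (hd j hj).1).2 (a3 j hj), a4⟩
      · rintro ⟨a1, a2, a3, a4⟩
        exact ⟨a1, a2, fun j hj => (pair_iff w _ _ (hd j hj).1).1 (a3 j hj), a4⟩
    rw [hcount] at hmain
    exact hmain

end Pool.Agent.Results.MP_678834_nt.SuccessiveClosePairs
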