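import Pool.Agent.U455.UQM
import Pool.Agent.U766.OP.Sq
import Pool.Agent.U766.OP.Exa
import Pool.Agent.Q278.KT.Fin

/-!
# Prime pairs whose difference is a multiple of `2 q`: lower bounds of the right order, uniformly in `q`

For every `δ > 0` there are `h`, `M ≥ 1`, `κ, ρ > 0` and `K` such that for ALL large `x`, for EVERY `H` with
`x ^ 0.616 ≤ H ≤ x`, for EVERY set `Q` of primes of `(x, x + H]` which contains at least the proportion `δ` of them, and for
EVERY modulus `q ≥ 1`: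

* for every `L` with `K log x ≤ L ≤ H / (2 q)` at least `ρ L` of the multiples `d = 2 q k`, `k ≤ L`, satisfy
  `#{p ∈ Q : p + d ∈ Q} ≥ κ 𝔖(d) H / (log x)²` with the singular series `𝔖(d)` (which may be as large as a multiple of
  `log log q` for all of these `d`);
* every multiple `t` of `M` with `K log x ≤ t ≤ H / (2 q)` is a sum of at most `h` such `k`, so `2 q t` is a sum of at most
  `h` such differences `d`, all multiples of `2 q`.

The constants do not depend on `q`, `x`, `H`, `Q`. For `H = x` and all primes these are lower bounds for `π₂`.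

Proof: the primes are cut into blocks and into the `φ (2 q)` reduced classes modulo `2 q`, the Cauchy-Schwarz inequality
gives the first moment with the factor `2 q / φ (2 q)` (`Pool.Agent.U455.UQM.cellsU`); the upper bound sieve has the factor
`d / φ (d) ≤ (2 q / φ (2 q)) (k / φ (k))`, and the second moment of `k / φ (k)` is elementary; the `k` with large
`k / φ (k)` are few (`densU`). The sums come from a local form of Schnirelmann's theorem (`Pool.Agent.U455.BTH.main`), which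
needs only the positive density at all scales from a scale on.
-/

set_option autoImplicit false

namespace Pool.Agent.Results.MP_678834_nt.UniformInModulus

open Filter Finset

/-- The twin prime constant `C₂`. -/
noncomputable def C2 : ℝ := ∏' p : {p : ℕ // p.Prime ∧ 2 < p}, (1 - 1 / (((p.1 : ℕ) : ℝ) - 1) ^ 2)

/-- `𝔖(d) = 2 C₂ ∏_{p ∣ d, p ≥ 3} (p - 1) / (p - 2)`, used for even `d`. -/
noncomputable def S (d : ℕ) : ℝ :=
  2 * C2 * ∏ p ∈ d.primeFactors.filter (fun p : ℕ => 2 < p), (((p : ℝ) - 1) / ((p : ℝ) - 2))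

lemma telescope (N : ℕ) (hN : 2 ≤ N) : ∏ n ∈ Icc 3 N, (((n : ℝ) - 1) ^ 2 / (n * ((n : ℝ) - 2))) = 2 * ((N : ℝ) - 1) / N := by
  induction N, hN using Nat.le_induction with
  | base => norm_num
  | succ N hN ih =>
    rw [prod_Icc_succ_top (by omega), ih]
    have h2 : (2 : ℝ) ≤ N := by exact_mod_cast hN
    have h3 : (N : ℝ) - 1 ≠ 0 := by linarith
    have h4 : (N : ℝ) ≠ 0 := by linarith
    have h5 : (N : ℝ) + 1 ≠ 0 := by linarith
    push_cast
    have h6 : (N : ℝ) + 1 - 2 = N - 1 := by ring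
    have h7 : (N : ℝ) + 1 - 1 = N := by ring
    rw [h6, h7]
    field_simp

lemma sing_le (d : ℕ) : ∏ p ∈ d.primeFactors.filter (fun p : ℕ => 2 < p), (((p : ℝ) - 1) / ((p : ℝ) - 2)) ≤
    2 * Pool.Agent.U455.SQS.ff d := by
  obtain ⟨A, hA⟩ : ∃ A, A = d.primeFactors.filter (fun p : ℕ => 2 < p) := ⟨_, rfl⟩
  rw [← hA]
  have hAp : ∀ p ∈ A, p.Prime ∧ (3 : ℝ) ≤ p ∧ p ∈ d.primeFactors := by
    intro p hp
    rw [hA, mem_filter] at hp
    exact ⟨(Nat.mem_primeFactors.1 hp.1).1, by exact_mod_cast hp.2, hp.1⟩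
  have h1 : ∏ p ∈ A, (((p : ℝ) - 1) / ((p : ℝ) - 2)) =
      (∏ p ∈ A, (((p : ℝ) - 1) ^ 2 / (p * ((p : ℝ) - 2)))) * ∏ p ∈ A, ((p : ℝ) / (p - 1)) := by
    rw [← prod_mul_distrib]
    apply prod_congr rfl
    intro p hp
    obtain ⟨_, h3, _⟩ := hAp p hp
    have h4 : (p : ℝ) - 1 ≠ 0 := by linarith
    have h5 : (p : ℝ) ≠ 0 := by linarith
    have h6 : (p : ℝ) - 2 ≠ 0 := by linarith
    field_simp
  have hfac : ∀ n : ℕ, 3 ≤ n → (1 : ℝ) ≤ ((n : ℝ) - 1) ^ 2 / (n * ((n : ℝ) - 2)) := by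
    intro n hn
    have h3 : (3 : ℝ) ≤ n := by exact_mod_cast hn
    rw [le_div_iff₀ (by nlinarith)]
    nlinarith
  have h2 : ∏ p ∈ A, (((p : ℝ) - 1) ^ 2 / (p * ((p : ℝ) - 2))) ≤ 2 := by
    obtain ⟨N, hN⟩ : ∃ N, N = max d 2 := ⟨_, rfl⟩
    have hN2 : 2 ≤ N := by rw [hN]; exact le_max_right _ _
    have hN2R : (2 : ℝ) ≤ N := by exact_mod_cast hN2
    calc ∏ p ∈ A, (((p : ℝ) - 1) ^ 2 / (p * ((p : ℝ) - 2)))
        ≤ ∏ n ∈ Icc 3 N, (((n : ℝ) - 1) ^ 2 / (n * ((n : ℝ) - 2))) := by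
          apply prod_le_prod_of_subset_of_one_le
          · intro p hp
            obtain ⟨_, h3, h4⟩ := hAp p hp
            rw [mem_Icc, hN]
            exact ⟨by exact_mod_cast h3, (Nat.le_of_mem_primeFactors h4).trans (le_max_left _ _)⟩
          · intro p hp
            obtain ⟨_, h3, _⟩ := hAp p hp
            exact zero_le_one.trans (hfac p (by exact_mod_cast h3))
          · intro n hn _
            exact hfac n (mem_Icc.1 hn).1
      _ = 2 * ((N : ℝ) - 1) / N := telescope N hN2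
      _ ≤ 2 := by
          rw [div_le_iff₀ (by linarith)]
          linarith
  have h3 : ∏ p ∈ A, ((p : ℝ) / (p - 1)) ≤ Pool.Agent.U455.SQS.ff d := by
    unfold Pool.Agent.U455.SQS.ff
    apply prod_le_prod_of_subset_of_one_le
    · rw [hA]; exact filter_subset _ _
    · intro p hp
      exact zero_le_one.trans (Pool.Agent.U455.SQS.one_le_fac (hAp p hp).1)
    · intro p hp _
      exact Pool.Agent.U455.SQS.one_le_fac (Nat.mem_primeFactors.1 hp).1
  rw [h1]
  have h4 : 0 ≤ ∏ p ∈ A, ((p : ℝ) / (p - 1)) := prod_nonneg fun p hp =>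
    zero_le_one.trans (Pool.Agent.U455.SQS.one_le_fac (hAp p hp).1)
  exact mul_le_mul h2 h3 h4 (by norm_num)

lemma S_le (d : ℕ) : S d ≤ 4 * |C2| * Pool.Agent.U455.SQS.ff d := by
  have h1 := sing_le d
  have h2 : 0 ≤ ∏ p ∈ d.primeFactors.filter (fun p : ℕ => 2 < p), (((p : ℝ) - 1) / ((p : ℝ) - 2)) := by
    apply prod_nonneg
    intro p hp
    have h3 : (3 : ℝ) ≤ p := by exact_mod_cast (mem_filter.1 hp).2
    exact div_nonneg (by linarith) (by linarith)
  unfold S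
  calc 2 * C2 * ∏ p ∈ d.primeFactors.filter (fun p : ℕ => 2 < p), (((p : ℝ) - 1) / ((p : ℝ) - 2))
      ≤ 2 * |C2| * ∏ p ∈ d.primeFactors.filter (fun p : ℕ => 2 < p), (((p : ℝ) - 1) / ((p : ℝ) - 2)) := by
        apply mul_le_mul_of_nonneg_right _ h2
        have := le_abs_self C2
        linarith
    _ ≤ 2 * |C2| * (2 * Pool.Agent.U455.SQS.ff d) := by gcongr
    _ = _ := by ring

open Classical in
theorem result (δ : ℝ) (hδ : 0 < δ) : ∃ h M : ℕ, 1 ≤ M ∧ ∃ κ ρ K : ℝ, 0 < κ ∧ 0 < ρ ∧ ∀ᶠ x : ℕ in atTop,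
    ∀ H : ℕ, (x : ℝ) ^ (0.616 : ℝ) ≤ H → H ≤ x → ∀ Q : Finset ℕ, Q ⊆ (Ioc x (x + H)).filter Nat.Prime →
      δ * (((Ioc x (x + H)).filter Nat.Prime).card : ℝ) ≤ Q.card → ∀ q : ℕ, 1 ≤ q →
      (∀ L : ℕ, K * Real.log x ≤ L → 2 * q * L ≤ H → ρ * L ≤ (((Icc 1 L).filter (fun k =>
        κ * (S (2 * q * k) * H / Real.log x ^ 2) ≤ ((Q.filter (fun p => p + 2 * q * k ∈ Q)).card : ℝ))).card : ℝ)) ∧
      ∀ t : ℕ, M ∣ t → K * Real.log x ≤ t → 2 * q * t ≤ H → ∃ l : List ℕ, l.length ≤ h ∧ l.sum = t ∧ ∀ k ∈ l, 1 ≤ k ∧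
        κ * (S (2 * q * k) * H / Real.log x ^ 2) ≤ ((Q.filter (fun p => p + 2 * q * k ∈ Q)).card : ℝ) := by
  obtain ⟨c, η, hc, hη, hη1, hall⟩ := Pool.Agent.U766.OP.all_long Pool.Agent.Q278.KT.mainp_043
    (by norm_num) (by norm_num) (by norm_num) (by norm_num)
  obtain ⟨h, M, hM, κ, ρ, K, hκ, hρ, hK, X₀, hmain⟩ := Pool.Agent.U455.UQM.main (δ * c / 2) (by positivity)
  obtain ⟨κ', hκ'⟩ : ∃ κ' : ℝ, κ' = κ / (4 * |C2| + 1) := ⟨_, rfl⟩
  have hκ'0 : 0 < κ' := by rw [hκ']; positivity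
  refine ⟨h, M, hM, κ', ρ, K, hκ'0, hρ, ?_⟩
  have tn : Tendsto (fun n : ℕ => (n : ℝ)) atTop atTop := tendsto_natCast_atTop_atTop
  have tX : Tendsto (fun n : ℕ => (n : ℝ) ^ (0.616 : ℝ)) atTop atTop := (tendsto_rpow_atTop (by norm_num)).comp tn
  filter_upwards [tn.eventually hall, eventually_ge_atTop 8, tX.eventually_ge_atTop (X₀ : ℝ),
    (Real.tendsto_log_atTop.comp tn).eventually_ge_atTop 3] with x hx hx8 hxX hlog H hH hHx Q hQ hQc q hq
  have hlog' : 3 ≤ Real.log (x : ℝ) := hlog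
  have hx8' : (8 : ℝ) ≤ x := by exact_mod_cast hx8
  have hx0 : (0 : ℝ) < x := by linarith
  have hx1 : (1 : ℝ) ≤ x := by linarith
  have hHxR : (H : ℝ) ≤ x := by exact_mod_cast hHx
  have hHX₀ : X₀ ≤ H := by
    have : (X₀ : ℝ) ≤ H := hxX.trans hH
    exact_mod_cast this
  have hH0 : (0 : ℝ) < H := lt_of_lt_of_le (by positivity) hH
  -- the logarithms
  have hl1 : Real.log H ≤ Real.log x := Real.log_le_log hH0 hHxR
  have hl2 : Real.log x ≤ 2 * Real.log H := by
    have h1 := Real.log_le_log (by positivity) hH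
    rw [Real.log_rpow hx0] at h1
    linarith
  have hl0 : 0 < Real.log (H : ℝ) := by linarith
  -- the number of primes
  have hprimes : c * H / Real.log x ≤ (((Ioc x (x + H)).filter Nat.Prime).card : ℝ) := by
    have h4 := hx x H le_rfl (by linarith) (by
      refine le_trans ?_ hH
      apply Real.rpow_le_rpow_of_exponent_le hx1
      norm_num
      linarith)
    rw [Pool.Agent.U766.OP.pic_nat] at h4
    exact h4
  have hQsub : Q ⊆ Ioc x (x + H) := fun p hp => (mem_filter.1 (hQ hp)).1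
  have hQp : ∀ p ∈ Q, p.Prime := fun p hp => (mem_filter.1 (hQ hp)).2
  have hQc' : δ * c / 2 * (H / Real.log H) ≤ Q.card := by
    refine le_trans ?_ hQc
    calc δ * c / 2 * (H / Real.log H) ≤ δ * c / 2 * (H / (Real.log x / 2)) := by
          gcongr
          linarith
      _ = δ * (c * H / Real.log x) := by field_simp
      _ ≤ _ := mul_le_mul_of_nonneg_left hprimes hδ.le
  obtain ⟨hA, hB⟩ := hmain x H hHX₀ hHx Q hQsub hQp hQc' q hq
  have hcmp : ∀ k : ℕ, κ' * (S (2 * q * k) * H / Real.log x ^ 2) ≤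
      κ * (Pool.Agent.U455.SQS.ff (2 * q * k) * (H / Real.log H ^ 2)) := by
    intro k
    have h1 := S_le (2 * q * k)
    have h2 := Pool.Agent.U455.UQM.one_le_ff (2 * q * k)
    obtain ⟨F, hF⟩ : ∃ F, F = Pool.Agent.U455.SQS.ff (2 * q * k) := ⟨_, rfl⟩
    rw [← hF] at h1 h2 ⊢
    have h3 : S (2 * q * k) ≤ (4 * |C2| + 1) * F := by nlinarith
    have h4 : (H : ℝ) / Real.log x ^ 2 ≤ H / Real.log H ^ 2 := by gcongr
    calc κ' * (S (2 * q * k) * H / Real.log x ^ 2) = κ' * (S (2 * q * k) * (H / Real.log x ^ 2)) := by ring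
      _ ≤ κ' * ((4 * |C2| + 1) * F * (H / Real.log x ^ 2)) := by
          apply mul_le_mul_of_nonneg_left _ hκ'0.le
          exact mul_le_mul_of_nonneg_right h3 (by positivity)
      _ = κ * (F * (H / Real.log x ^ 2)) := by rw [hκ']; field_simp
      _ ≤ κ * (F * (H / Real.log H ^ 2)) := by gcongr
  refine ⟨fun L hL hLH => ?_, fun t hMt htK htH => ?_⟩
  · refine (hA L (le_trans (by gcongr) hL) hLH).trans (Nat.cast_le.2 (card_le_card fun k hk => ?_))
    rw [mem_filter] at hk ⊢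
    exact ⟨hk.1, (hcmp k).trans hk.2⟩
  · obtain ⟨l, h1, h2, h3⟩ := hB t hMt (le_trans (by gcongr) htK) htH
    exact ⟨l, h1, h2, fun k hk => ⟨(h3 k hk).1, (hcmp k).trans (h3 k hk).2⟩⟩

end Pool.Agent.Results.MP_678834_nt.UniformInModulus
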